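import Pool.Agent.Helper617.EX.Mod6

/-!
There is a model of `RCA₀` in which `EXT(ω*)` holds and `Σ⁰₂` induction fails. Hence
`RCA₀ + EXT(ω*)` proves neither `Σ⁰₂` induction nor, a fortiori, arithmetical comprehension.

The model is the one constructed in the folder `Helper617/EX` for the question of
MP_7fe518_lc, which is the same as the question of MP_9b0a74_lc; there it was shown that
arithmetical comprehension fails in the model. Here the failure is located at the level `Σ⁰₂`:
the numbers `c` such that the colours of unboundedly many numbers are at least `c` form a proper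
initial segment which is closed under successor, and this initial segment is defined by a `Π⁰₂`
formula with one set parameter. Reflecting this cut in a number outside of it gives a `Σ⁰₂`
formula for which induction fails.
-/

namespace Pool.Agent.Results.MP_9b0a74_lc.ExtOmegaStarWithoutSigmaTwo

open Pool.Agent.Helper617 Pool.Agent.Helper617.RM Pool.Agent.Helper617.EX

/-- `Σ⁰₂` induction: induction for all formulas `∃ k, ∀ l, θ(l, k, n)` with number and set
parameters from the structure, where `θ` is a `Δ⁰₀` formula (all its quantifiers are bounded). -/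
def Sigma2Induction (N : L2Structure.{0}) : Prop :=
  ∀ (θ : Delta0 N) (v : ℕ → N.M),
    (∃ k, ∀ l, θ.Holds (RM.cons l (RM.cons k (RM.cons N.zero v)))) →
    (∀ n, (∃ k, ∀ l, θ.Holds (RM.cons l (RM.cons k (RM.cons n v)))) →
      ∃ k, ∀ l, θ.Holds (RM.cons l (RM.cons k (RM.cons (N.add n N.one) v)))) →
    ∀ n, ∃ k, ∀ l, θ.Holds (RM.cons l (RM.cons k (RM.cons n v)))

theorem not_sigma2 : ¬ Sigma2Induction NN := by
  intro h
  let A : NN.Sets := ⟨_, CC_mem⟩
  obtain ⟨c0, hc0⟩ := exists_not_JJ
  let θ : Delta0 NN := .ball (.add (.const c0) .one)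
    (.neg (.and (.eq (.add (.var 0) (.var 3)) (.const c0))
      (.and (.lt (.var 2) (.var 1)) (.mem (pairT (.var 1) (.var 0)) A))))
  have hθ : ∀ k l n : NN.M,
      θ.Holds (RM.cons l (RM.cons k (RM.cons n fun _ => NN.zero))) ↔
      ∀ c : NN.M, NN.lt c (NN.add c0 NN.one) →
        ¬ (NN.add c n = c0 ∧ NN.lt k l ∧ NN.pair l c ∈ (A : Set NN.M)) := by
    intro k l n
    exact Iff.rfl
  have hA : ∀ l c : NN.M, NN.pair l c ∈ (A : Set NN.M) ↔ Ev fun t => rp c t ≤ cl t (rp l t) :=
    fun l c => mem_CS l c
  have back : ∀ n : NN.M, (∀ c : NN.M, c + n = c0 → ¬ JJ c) →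
      ∃ k, ∀ l, θ.Holds (RM.cons l (RM.cons k (RM.cons n fun _ => NN.zero))) := by
    intro n hn
    by_cases hex : ∃ c : NN.M, c + n = c0
    · obtain ⟨c, hc⟩ := hex
      have h1 := hn c hc
      unfold JJ at h1
      push Not at h1
      obtain ⟨x, hx⟩ := h1
      refine ⟨x, fun l => ?_⟩
      rw [hθ]
      intro c' _ hcc
      have e : c' = c := add_cancel' ((show c' + n = c0 from hcc.1).trans hc.symm)
      rw [e, hA] at hcc
      exact hx l hcc.2.1 hcc.2.2
    · refine ⟨NN.zero, fun l => ?_⟩
      rw [hθ]
      intro c' _ hcc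
      exact hex ⟨c', hcc.1⟩
  have forth : ∀ n c : NN.M, c + n = c0 →
      (∃ k, ∀ l, θ.Holds (RM.cons l (RM.cons k (RM.cons n fun _ => NN.zero)))) → ¬ JJ c := by
    intro n c hc hk hJ
    obtain ⟨k, hk⟩ := hk
    obtain ⟨l, h1, h2⟩ := hJ k
    refine (hθ k l n).mp (hk l) c ?_ ⟨hc, h1, (hA l c).mpr h2⟩
    have : c < c0 + 1 := by
      rw [lt_add_one_iff', ← hc]
      exact le_add_of_nonneg_right (zero_le' n)
    exact this
  have hall := h θ (fun _ => NN.zero)
    (back NN.zero fun c hc => by
      have e : c = c0 := by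
        have : c + 0 = c0 := hc
        rwa [add_zero] at this
      rw [e]; exact hc0)
    (fun n hn => back (NN.add n NN.one) fun c hc hJ => by
      have e : (c + 1) + n = c0 := by
        have h1 : c + (n + 1) = c0 := hc
        rw [← h1]; ring
      exact forth n (c + 1) e hn (JJ_succ hJ)) c0
  exact forth c0 NN.zero (by
    show (0 : NN.M) + c0 = c0
    rw [zero_add]) hall JJ_zero

/-- **Main theorem.** There is a structure for second-order arithmetic which is a model of
`RCA₀` and of `EXT(ω*)`, and in which `Σ⁰₂` induction fails (so that arithmetical comprehension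
fails as well). -/
theorem result : ∃ N : L2Structure.{0}, IsModelRCA0 N ∧ ExtOmegaStar N ∧
    ¬ Sigma2Induction N ∧ ¬ Pool.Agent.Helper617.EX.ArithComp N :=
  ⟨NN, isModel, ext, not_sigma2, not_arith⟩

end Pool.Agent.Results.MP_9b0a74_lc.ExtOmegaStarWithoutSigmaTwo
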